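import Pool.Agent.H32.CH.Targets

set_option autoImplicit false

namespace Pool.Agent.H50.CH

open Finset Pool.Agent.H32.CH
open scoped Classical

theorem pf_M3 (h1 : T_M1) (h2 : T_M2) : T_M3 := by
  intro V _ G A hdeg hext b hb
  by_contra hlt
  have hle := (h1 V G A hdeg hext.1).2 b hb
  have heq : dg G Aᶜ b = 2 := by omega
  have hM := ((h2 V G A hdeg hext.1).2 b hb heq).2
  have hc := hext.2 _ hM
  rw [card_insert_of_notMem hb] at hc
  omega

end Pool.Agent.H50.CH
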